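import Pool.Agent.Q255.L2.Almy
import Pool.Agent.Q241.L2.Kode
import Pool.Agent.Q261.L2.Kint
import Pool.Agent.Q241.L2.Kbb
import Pool.Agent.Q151.L2.HY
import Pool.Agent.Q151.L2.CLH
import Pool.Agent.Q193.L2.Tup
import Pool.Agent.Q68.L2.WC
import Pool.Agent.Q65.L2.Fou
import Pool.Agent.Q151.L2.BAL
import Pool.Agent.Q182.L2.QE
import Pool.Agent.Q153.L2.Gmaq
import Pool.Agent.Q68.L2Y.YK
import Pool.Agent.Q68.L2Y.YB
import Pool.Agent.Q65.L2.Ys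
import Pool.Agent.Q176.L2Y.YC
import Pool.Agent.Q38.L2Y.YV
import Pool.Agent.Q38.L2Y.YD
import Pool.Agent.Q214.L2Y.Ye

/-!
# The quadratic twists of orthogonal Hecke-Maass forms are asymptotically independent Gaussian variables on low horocycles

Let `a_1, …, a_I` be the coefficients of Hecke-Maass forms with the spectral parameters `T_i ≥ 1`, orthogonal to each other, and
`U_{i,p}(x + iy) = √y ∑ a_i(n) (n/p) K_{iT_i}(2πny) cos(2πnx)` (or with `sin`) the twists by the quadratic symbol modulo an odd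
prime `p`. For all but few `p ≤ P` all joint moments of the twists over every interval of every horocycle of height
`P^(-1/K) ≤ y ≤ 1/Z` are the products of the Gaussian moments, up to a power of `y`. Used of the coefficients:
`∑_{n ≤ N} a_i(n) a_j(n) = κ_i δ_{ij} N + O(N^(1-η))` (Rankin-Selberg), `∑_{n ≤ N} a_i(n)^8 ≤ C N^(1+ε)` and
`∑_{s ≤ S squarefree} ∑_{r ≤ R} a_i(r² s)^4 ≤ C (R S)^(1+ε)` (known for all Hecke-Maass forms of `SL₂(ℤ)`).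
-/

set_option autoImplicit false

namespace Pool.Agent.Results.MP_a28cf0_nt.OrthogonalFormsIndependent

open Finset Filter Topology MeasureTheory

/-- the Bessel function `K_{iT}(u) = ∫_0^∞ exp(-u cosh t) cos(T t) dt` -/
noncomputable def K (T u : ℝ) : ℝ :=
  ∫ t in Set.Ioi (0 : ℝ), Real.exp (-(u * Real.cosh t)) * Real.cos (T * t)

/-- the quadratic symbol `(n / p)` -/
noncomputable def chi (p n : ℕ) : ℝ := (jacobiSym (n : ℤ) p : ℝ)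

/-- `√y ∑_{n ≥ 1} a(n) g(n) K_{iT}(2πny) cos(2πnx)` (`b = true`) or with `sin(2πnx)` (`b = false`) -/
noncomputable def U (b : Bool) (T : ℝ) (a g : ℕ → ℝ) (x y : ℝ) : ℝ :=
  √y * ∑' n : ℕ, a (n + 1) * g (n + 1) * K T (2 * Real.pi * ((n + 1) * y)) *
    (if b then Real.cos (2 * Real.pi * (n + 1) * x) else Real.sin (2 * Real.pi * (n + 1) * x))

/-- the limit `σ² = (κ/2) ∫_0^∞ K_{iT}(2πt)² dt` of the mean square over `0 ≤ x ≤ 1` -/
noncomputable def variance (T κ : ℝ) : ℝ := κ / 2 * ∫ t in Set.Ioi (0 : ℝ), K T (2 * Real.pi * t) ^ 2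

/-- the moments of the standard normal law: `(k-1)‼` for even `k`, `0` for odd `k` -/
def gaussMoment (k : ℕ) : ℕ := if Even k then (k - 1).doubleFactorial else 0

/-! ## The lemmas -/

theorem kbb : Pool.Agent.Q255.L2.S_KBB := Pool.Agent.Q241.L2.kbb Pool.Agent.Q241.L2.kode Pool.Agent.Q261.L2.t_KINT

theorem qe : Pool.Agent.Q255.L2.S_QE := Pool.Agent.Q182.L2.qe Pool.Agent.Q151.L2.hy

theorem wc : Pool.Agent.Q255.L2.S_WC :=
  Pool.Agent.Q68.L2.wc Pool.Agent.Q151.L2.hy (Pool.Agent.Q151.L2.clh Pool.Agent.Q193.L2.tup Pool.Agent.Q193.L2.par)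

theorem yd : Pool.Agent.Q255.L2Y.S_YD :=
  Pool.Agent.Q38.L2Y.yd (Pool.Agent.Q176.L2Y.YC.yc (Pool.Agent.Q153.L2.gmaq qe) (Pool.Agent.Q68.L2Y.yb wc)
    Pool.Agent.Q65.L2.Fou.fou (Pool.Agent.Q65.L2Y.ys qe)) Pool.Agent.Q38.L2Y.yv Pool.Agent.Q151.L2.bal

/-- the power of two above `t` -/
theorem pow_above {t : ℝ} (ht : 1 ≤ t) : ∃ J : ℕ, t ≤ 2 ^ J ∧ (2 : ℝ) ^ J ≤ 2 * t := by
  obtain ⟨n, h1, h2⟩ := exists_nat_pow_near ht (by norm_num : (1 : ℝ) < 2)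
  refine ⟨n + 1, h2.le, ?_⟩
  rw [pow_succ]
  linarith

/-- the scale of `y` -/
theorem scale {y : ℝ} (hy : 0 < y) (hy1 : y ≤ 1) : ∃ J : ℕ, 1 / y ≤ 2 ^ J ∧ (2 : ℝ) ^ J ≤ 2 / y ∧
    (2 : ℝ) ^ (-(J : ℝ)) ≤ y ∧ y ≤ 2 * (2 : ℝ) ^ (-(J : ℝ)) := by
  obtain ⟨J, h1, h2⟩ := pow_above (one_le_one_div hy hy1)
  have h3 : (2 : ℝ) ^ (-(J : ℝ)) = 1 / 2 ^ J := by
    rw [Real.rpow_neg (by norm_num), Real.rpow_natCast, one_div]
  have h4 : (0 : ℝ) < 2 ^ J := by positivity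
  refine ⟨J, h1, by rw [mul_one_div] at h2; exact h2, ?_, ?_⟩
  · rw [h3, one_div_le h4 hy]
    exact h1
  · rw [h3, mul_one_div, le_div_iff₀ h4]
    have h5 : y * 2 ^ J ≤ y * (2 * (1 / y)) := mul_le_mul_of_nonneg_left h2 hy.le
    have h6 : y * (2 * (1 / y)) = 2 := by field_simp
    linarith

theorem two_rpow_le {c y : ℝ} {J : ℕ} (hc : 0 ≤ c) (h : (2 : ℝ) ^ (-(J : ℝ)) ≤ y) :
    (2 : ℝ) ^ (-(c * J)) ≤ y ^ c :=
  calc (2 : ℝ) ^ (-(c * J)) = ((2 : ℝ) ^ (-(J : ℝ))) ^ c := by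
        rw [← Real.rpow_mul (by norm_num)]
        congr 1
        ring
    _ ≤ y ^ c := Real.rpow_le_rpow (by positivity) h hc

/-- **The quadratic twists of orthogonal Hecke-Maass forms are asymptotically independent Gaussian variables on low
horocycles.**

For finitely many sequences `a_i` with `∑_{n ≤ N} a_i(n)² = κ_i N + O(N^(1-η))`, `∑_{n ≤ N} a_i(n) a_j(n) = O(N^(1-η))` for `i ≠ j` and
the bounds for the mean values of order `8` and, along `r² s`, of order `4`, all `T_i ≥ 1` and all exponents `e_i` there are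
`c > 0`, `C₁` such that for every `B ≥ 0` there are `K₀`, `C` such that for all `P` and `Z ≥ 1`: for all but at most `C P Z^(-B)` of
the odd primes `p ≤ P`, all parities, all `y ≤ 1/Z` with `(2/y)^K₀ ≤ P` and all `0 ≤ α ≤ β ≤ 1`:
`∫_α^β ∏_i U_{i,p}(x + iy)^{e_i} dx = (β - α) ∏_i C_{e_i} σ_i^{e_i} + O(y^c)`. -/
theorem result :
    ∀ (ι : Type) [Fintype ι] (T : ι → ℝ) (a : ι → ℕ → ℝ) (κ : ι → ℝ), (∀ i, 1 ≤ T i) →
      (∃ η C : ℝ, 0 < η ∧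
        (∀ (i : ι) (N : ℕ), 1 ≤ N → |∑ n ∈ Icc 1 N, a i n ^ 2 - κ i * N| ≤ C * (N : ℝ) ^ (1 - η)) ∧
        ∀ (i j : ι) (N : ℕ), i ≠ j → 1 ≤ N → |∑ n ∈ Icc 1 N, a i n * a j n| ≤ C * (N : ℝ) ^ (1 - η)) →
      (∀ ε : ℝ, 0 < ε → ∃ C : ℝ, ∀ (i : ι) (N : ℕ), 1 ≤ N →
        ∑ n ∈ Icc 1 N, a i n ^ 8 ≤ C * (N : ℝ) ^ ε * N) →
      (∀ ε : ℝ, 0 < ε → ∃ C : ℝ, ∀ (i : ι) (R S : ℕ), 1 ≤ R → 1 ≤ S →
        ∑ s ∈ (Icc 1 S).filter Squarefree, ∑ r ∈ Icc 1 R, a i (r ^ 2 * s) ^ 4 ≤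
          C * ((R : ℝ) * S) ^ ε * (R * S)) →
      ∀ e : ι → ℕ, ∃ c C₁ : ℝ, 0 < c ∧
        ∀ B : ℝ, 0 ≤ B → ∃ (K₀ : ℕ) (C : ℝ), ∀ (P : ℕ) (Z : ℝ), 1 ≤ Z →
          ({p : ℕ | p ≤ P ∧ p.Prime ∧ p ≠ 2 ∧ ∃ (b : ι → Bool) (y α β : ℝ),
            0 < y ∧ Z ≤ 1 / y ∧ (2 / y) ^ K₀ ≤ P ∧ 0 ≤ α ∧ α ≤ β ∧ β ≤ 1 ∧
              C₁ * y ^ c <
                |(∫ x in α..β, ∏ i, U (b i) (T i) (a i) (chi p) x y ^ e i) -
                  (β - α) * ∏ i, (gaussMoment (e i) * √(variance (T i) (κ i)) ^ e i)|}.ncard : ℝ) ≤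
            C * P * Z ^ (-B) := by
  intro ι _ T a κ hT hgram h8 h4 e
  classical
  obtain ⟨η, C₀, hη, hC₀, hC₀'⟩ := hgram
  have hG : Pool.Agent.Q255.L2Y.Gram a (fun i j => if i = j then κ i else 0) := by
    refine ⟨min η (1 / 2), |C₀|, lt_min hη (by norm_num), (min_le_right _ _).trans_lt (by norm_num),
      fun i j N hN => ?_⟩
    have hN1 : (1 : ℝ) ≤ N := by exact_mod_cast hN
    have hup : C₀ * (N : ℝ) ^ (1 - η) ≤ |C₀| * (N : ℝ) ^ (1 - min η (1 / 2)) :=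
      (mul_le_mul_of_nonneg_right (le_abs_self _) (by positivity)).trans (mul_le_mul_of_nonneg_left
        (Real.rpow_le_rpow_of_exponent_le hN1 (by linarith [min_le_left η (1 / 2)])) (abs_nonneg _))
    by_cases hij : i = j
    · subst hij
      simp only [↓reduceIte]
      refine le_trans ?_ hup
      have := hC₀ i N hN
      simpa only [sq] using this
    · simp only [if_neg hij, zero_mul, sub_zero]
      exact (hC₀' i j N hij hN).trans hup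
  have hCoef : Pool.Agent.Q255.L2.Coef (fun _ : ι => (1 : ℝ)) a := by
    refine ⟨fun ε hε => ?_, fun ε hε => ?_⟩
    · obtain ⟨C, hC⟩ := h8 ε hε
      exact ⟨C, fun i N hN => by simpa using hC i N hN⟩
    · obtain ⟨C, hC⟩ := h4 ε hε
      exact ⟨C, fun i R S hR hS => by simpa using hC i R S hR hS⟩
  obtain ⟨c, C₁, hc, hC₁, hA⟩ := Pool.Agent.Q214.L2Y.ye yd ι a (fun i u => K (T i) (2 * Real.pi * u))
    (fun i u => 2 * Real.pi * Pool.Agent.Q255.L2.KB1 (T i) (2 * Real.pi * u)) (fun i j => if i = j then κ i else 0)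
    hCoef (fun i => Pool.Agent.Q68.L2Y.yk Pool.Agent.Q241.L2.kode kbb (T i) (hT i)) hG
    (fun i j hij => if_neg hij) e
  refine ⟨c, C₁, hc, fun B hB => ?_⟩
  obtain ⟨K₀, C, hC0, hC⟩ := Pool.Agent.Q255.L2.almy hA hB
  refine ⟨K₀, C, fun P Z hZ => hC P Z _ hZ fun p hp => ?_⟩
  obtain ⟨hpP, hpp, -, b, y, α, β, hy, hZy, hyP, hα, hαβ, hβ, hbad⟩ := hp
  have hy1 : y ≤ 1 := (one_le_div hy).1 (hZ.trans hZy)
  obtain ⟨J, hJ1, hJ2, hJ3, hJ4⟩ := scale hy hy1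
  refine ⟨hpP, hpp, J, hZy.trans hJ1, ?_, fun hcon => ?_⟩
  · have h5 : ((2 : ℝ) ^ J) ^ K₀ ≤ (2 / y) ^ K₀ := pow_le_pow_left₀ (by positivity) hJ2 K₀
    rw [← pow_mul, mul_comm J K₀] at h5
    exact_mod_cast h5.trans hyP
  · have h6 := hcon b y α β hJ3 hJ4 hα hαβ hβ
    simp only [↓reduceIte] at h6
    refine absurd h6 (not_le.2 ((mul_le_mul_of_nonneg_left (two_rpow_le hc.le hJ3) hC₁).trans_lt hbad))

end Pool.Agent.Results.MP_a28cf0_nt.OrthogonalFormsIndependent
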