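import Pool.Agent.Q255.L2.Almz
import Pool.Agent.Q241.L2.Kode
import Pool.Agent.Q261.L2.Kint
import Pool.Agent.Q241.L2.Kbb
import Pool.Agent.Q176.L2.KW
import Pool.Agent.Q150.L2.KNB
import Pool.Agent.Q151.L2.HY
import Pool.Agent.Q151.L2.CLH
import Pool.Agent.Q193.L2.Tup
import Pool.Agent.Q68.L2.WC
import Pool.Agent.Q65.L2.Fou
import Pool.Agent.Q151.L2.BAL
import Pool.Agent.Q182.L2.QE
import Pool.Agent.Q275.L2.Snq
import Pool.Agent.Q153.L2.Gmaq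
import Pool.Agent.Q153.L2.Gmdq
import Pool.Agent.Q150.L2.GQd
import Pool.Agent.Q238.L2.GMB2

/-!
# The joint Gaussian field of the quadratic twists of all Hecke-Maass forms

Let `(T_i, a_i)` be any family of numbers `T_i ≥ 1` and sequences of real coefficients, at most `A X^A` members with
`T_i ≤ X`, with `∑_{n ≤ N} a_i(n)^8 ≤ C (N T_i)^ε N` and
`∑_{s ≤ S squarefree} ∑_{r ≤ R} a_i(r² s)^4 ≤ C (R S T_i)^ε R S` for every `ε > 0` (both are known for all Hecke-Maass forms of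
`SL₂(ℤ)`). For all but at most `C P Z^(-B)` of the odd primes `p ≤ P` all moments of all linear combinations
`∑_j l_j U_j(x + u_j + i y_j)` of the twists by `(n/p)` of the expansions of members with comparable parameters, at any
shifted points of closed horocycles `y₀ ≤ y_j ≤ y₁`, over all intervals of `x`, are the Gaussian ones with a power saving error
term, for all parameters from `Z` to `P^(1/K)/2` at once.
-/

set_option autoImplicit false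

namespace Pool.Agent.Results.MP_a28cf0_nt.QuadraticTwistsField

open Finset Filter Topology MeasureTheory

/-- the Bessel function `K_{iT}(u) = ∫_0^∞ exp(-u cosh t) cos(T t) dt` -/
noncomputable def K (T u : ℝ) : ℝ :=
  ∫ t in Set.Ioi (0 : ℝ), Real.exp (-(u * Real.cosh t)) * Real.cos (T * t)

/-- the quadratic symbol `(n / p)` -/
noncomputable def chi (p n : ℕ) : ℝ := (jacobiSym (n : ℤ) p : ℝ)

/-- `e^{πT/2} √y ∑_{n ≥ 1} a(n) g(n) K_{iT}(2πny) cos(2πnx)` -/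
noncomputable def evenPart (T : ℝ) (a g : ℕ → ℝ) (x y : ℝ) : ℝ :=
  Real.exp (Real.pi * T / 2) * √y * ∑' n : ℕ, a (n + 1) * g (n + 1) *
    K T (2 * Real.pi * (n + 1) * y) * Real.cos (2 * Real.pi * (n + 1) * x)

/-- `e^{πT/2} √y ∑_{n ≥ 1} a(n) g(n) K_{iT}(2πny) sin(2πnx)` -/
noncomputable def oddPart (T : ℝ) (a g : ℕ → ℝ) (x y : ℝ) : ℝ :=
  Real.exp (Real.pi * T / 2) * √y * ∑' n : ℕ, a (n + 1) * g (n + 1) *
    K T (2 * Real.pi * (n + 1) * y) * Real.sin (2 * Real.pi * (n + 1) * x)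

/-- the even or the odd expansion -/
noncomputable def U (b : Bool) (T : ℝ) (a g : ℕ → ℝ) (x y : ℝ) : ℝ :=
  if b then evenPart T a g x y else oddPart T a g x y

/-- the moments of the standard normal law: `(k-1)‼` for even `k`, `0` for odd `k` -/
def gaussMoment (k : ℕ) : ℕ := if Even k then (k - 1).doubleFactorial else 0

/-! ## The lemmas -/

theorem kbb : Pool.Agent.Q255.L2.S_KBB := Pool.Agent.Q241.L2.kbb Pool.Agent.Q241.L2.kode Pool.Agent.Q261.L2.t_KINT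

theorem kw : Pool.Agent.Q255.L2.S_KW :=
  Pool.Agent.Q176.L2.KW.kw Pool.Agent.Q241.L2.kode Pool.Agent.Q261.L2.t_KINT kbb

theorem qe : Pool.Agent.Q255.L2.S_QE := Pool.Agent.Q182.L2.qe Pool.Agent.Q151.L2.hy

theorem sn : Pool.Agent.Q255.L2.S_SNQ :=
  Pool.Agent.Q275.L2.snq qe Pool.Agent.Q241.L2.kode kbb kw Pool.Agent.Q150.L2.KNB.kn2

theorem wc : Pool.Agent.Q255.L2.S_WC :=
  Pool.Agent.Q68.L2.wc Pool.Agent.Q151.L2.hy (Pool.Agent.Q151.L2.clh Pool.Agent.Q193.L2.tup Pool.Agent.Q193.L2.par)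

theorem gmc : Pool.Agent.Q255.L2.S_GMCQ :=
  Pool.Agent.Q150.L2.GQ.gmcq (Pool.Agent.Q153.L2.gmaq qe) (Pool.Agent.Q238.L2.GMB2.gmb2 wc kw Pool.Agent.Q150.L2.KNB.kn2) Pool.Agent.Q65.L2.Fou.fou sn
    Pool.Agent.Q241.L2.kode kbb kw

theorem gmd : Pool.Agent.Q255.L2.S_GMDQ :=
  Pool.Agent.Q153.L2.gmdq gmc Pool.Agent.Q151.L2.bal Pool.Agent.Q241.L2.kode kw Pool.Agent.Q150.L2.KNB.kn2

/-- the power of two above `t` -/
theorem pow_above {t : ℝ} (ht : 1 ≤ t) : ∃ J : ℕ, t ≤ 2 ^ J ∧ (2 : ℝ) ^ J ≤ 2 * t := by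
  obtain ⟨n, h1, h2⟩ := exists_nat_pow_near ht (by norm_num : (1 : ℝ) < 2)
  refine ⟨n + 1, h2.le, ?_⟩
  rw [pow_succ]
  linarith

/-- the form of `almz` for sets -/
theorem almz_ncard {Q : ℕ → ℕ → Prop} {r : ℕ} (hAlm : Pool.Agent.Q255.L2.Alm fun J m =>
    Pool.Agent.Q255.L2.Rgh (J + r) m → Q J m) {B : ℝ} (hB : 0 ≤ B) :
    ∃ (K : ℕ) (C : ℝ), 0 ≤ C ∧ ∀ (P : ℕ) (Z : ℝ) (S : Set ℕ), 1 ≤ Z →
      (∀ p ∈ S, p ≤ P ∧ p.Prime ∧ ∃ J : ℕ, Z ≤ 2 ^ J ∧ 2 ^ (K * J) ≤ P ∧ ¬ Q J p) →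
        (S.ncard : ℝ) ≤ C * P * Z ^ (-B) := by
  obtain ⟨K, C, hC0, hC⟩ := Pool.Agent.Q255.L2.almz hAlm hB
  refine ⟨K, C, hC0, fun P Z S hZ hS => ?_⟩
  have hfin : S.Finite := (Set.finite_le_nat P).subset fun p hp => (hS p hp).1
  rw [Set.ncard_eq_toFinset_card S hfin]
  exact hC P Z _ hZ fun p hp => hS p ((Set.Finite.mem_toFinset hfin).1 hp)

theorem two_rpow_le {c X : ℝ} {J : ℕ} (hX : 0 < X) (hc : 0 ≤ c) (hJ : X ≤ 2 ^ J) :
    (2 : ℝ) ^ (-(c * J)) ≤ X ^ (-c) :=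
  calc (2 : ℝ) ^ (-(c * J)) = ((2 : ℝ) ^ J) ^ (-c) := by
        rw [← Real.rpow_natCast 2 J, ← Real.rpow_mul (by norm_num)]
        congr 1
        ring
    _ ≤ X ^ (-c) := Real.rpow_le_rpow_of_nonpos hX hJ (by linarith)

/-- **The joint Gaussian field of the quadratic twists of all Hecke-Maass forms.**

For every family of polynomial size with coefficients bounded in the mean (of order `8`, and of order `4` along
`r² s`), all `0 < y₀ ≤ y₁`, `Λ`, `k`, `I ≥ 1` there are `c > 0`, `C₁` such that for every `B ≥ 0` there are `K₀`, `C` such that for all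
`P` and `Z ≥ 1`: for all but at most `C P Z^(-B)` of the odd primes `p ≤ P`, all `X ≥ Z` with `(2X)^K₀ ≤ P`, all members
`i_1, …, i_I` with `X/Λ ≤ T ≤ X`, all parities, all real `|l_j| ≤ 1`, `u_j`, all `y₀ ≤ y_j ≤ y₁` and `0 ≤ α ≤ β ≤ 1` the `k`-th moment over
`α ≤ x ≤ β` of `∑_j l_j U_j(x + u_j + i y_j)`, `U_j` the twists by `(n/p)`, is `(β - α) C_k σ^k + O(X^(-c))`, where `σ²` is the mean
square over `[0, 1]` of the same combination of the expansions without twist. -/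
theorem result :
    ∀ (ι : Type) (T : ι → ℝ) (a : ι → ℕ → ℝ) (A : ℝ), (∀ i, 1 ≤ T i) →
      (∀ X : ℝ, 1 ≤ X → {i | T i ≤ X}.Finite ∧ ({i | T i ≤ X}.ncard : ℝ) ≤ A * X ^ A) →
      (∀ ε : ℝ, 0 < ε → ∃ C : ℝ, ∀ (i : ι) (N : ℕ), 1 ≤ N →
        ∑ n ∈ Icc 1 N, a i n ^ 8 ≤ C * ((N : ℝ) * T i) ^ ε * N) →
      (∀ ε : ℝ, 0 < ε → ∃ C : ℝ, ∀ (i : ι) (R S : ℕ), 1 ≤ R → 1 ≤ S →
        ∑ s ∈ (Icc 1 S).filter Squarefree, ∑ r ∈ Icc 1 R, a i (r ^ 2 * s) ^ 4 ≤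
          C * ((R : ℝ) * S * T i) ^ ε * (R * S)) →
      ∀ (y₀ y₁ Λ : ℝ) (k I : ℕ), 0 < y₀ → y₀ ≤ y₁ → 1 ≤ I → ∃ c C₁ : ℝ, 0 < c ∧
        ∀ B : ℝ, 0 ≤ B → ∃ (K₀ : ℕ) (C : ℝ), ∀ (P : ℕ) (Z : ℝ), 1 ≤ Z →
          ({p : ℕ | p ≤ P ∧ p.Prime ∧ p ≠ 2 ∧ ∃ (X : ℝ) (i : Fin I → ι) (b : Fin I → Bool)
            (l u y : Fin I → ℝ) (α β : ℝ), Z ≤ X ∧ (2 * X) ^ K₀ ≤ P ∧
              (∀ j, T (i j) ≤ X ∧ X ≤ Λ * T (i j)) ∧ (∀ j, |l j| ≤ 1) ∧ (∀ j, y₀ ≤ y j ∧ y j ≤ y₁) ∧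
              0 ≤ α ∧ α ≤ β ∧ β ≤ 1 ∧
              C₁ * X ^ (-c) <
                |(∫ x in α..β, (∑ j, l j * U (b j) (T (i j)) (a (i j)) (chi p) (x + u j) (y j)) ^ k) -
                  (β - α) * (gaussMoment k *
                    √(∫ x in (0 : ℝ)..1, (∑ j, l j * U (b j) (T (i j)) (a (i j)) (fun _ => 1)
                      (x + u j) (y j)) ^ 2) ^ k)|}.ncard : ℝ) ≤ C * P * Z ^ (-B) := by
  intro ι T a A hT hfin h8 h4 y₀ y₁ Λ k I hy₀ hy₁ hI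
  classical
  obtain ⟨q, hq⟩ := pow_unbounded_of_one_lt (2 * Λ) (by norm_num : (1 : ℝ) < 2)
  obtain ⟨r, c, C₁, hc, hC₁, hA⟩ := gmd ι T a A ⟨hT, hfin⟩ ⟨h8, h4⟩ y₀ y₁ k I q hy₀ hy₁ hI
  refine ⟨c, C₁, hc, fun B hB => ?_⟩
  obtain ⟨K₀, C, hC0, hC⟩ := almz_ncard hA hB
  refine ⟨K₀, C, fun P Z hZ => hC P Z _ hZ fun p hp => ?_⟩
  obtain ⟨hpP, hpp, -, X, i, b, l, u, y, α, β, hZX, hXP, hTi, hl, hy, h0, hab, h1, hbad⟩ := hp
  have hX : 1 ≤ X := hZ.trans hZX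
  obtain ⟨J, hJ1, hJ2⟩ := pow_above hX
  have hX0 : 0 < X := by linarith
  refine ⟨hpP, hpp, J, hZX.trans hJ1, ?_, fun hcon => ?_⟩
  · have h3 : ((2 : ℝ) ^ J) ^ K₀ ≤ (2 * X) ^ K₀ := pow_le_pow_left₀ (by positivity) hJ2 K₀
    rw [← pow_mul, mul_comm J K₀] at h3
    exact_mod_cast h3.trans hXP
  · refine absurd (hcon i b l u y α β (fun j => ⟨(hTi j).1.trans hJ1, ?_⟩) hl hy h0 hab h1) (not_le.2 ?_)
    · have hT0 : 0 < T (i j) := by linarith [hT (i j)]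
      calc (2 : ℝ) ^ J ≤ 2 * X := hJ2
        _ ≤ 2 * (Λ * T (i j)) := by linarith [(hTi j).2]
        _ = (2 * Λ) * T (i j) := by ring
        _ ≤ 2 ^ q * T (i j) := mul_le_mul_of_nonneg_right hq.le hT0.le
    · exact (mul_le_mul_of_nonneg_left (two_rpow_le hX0 hc.le hJ1) hC₁).trans_lt hbad

end Pool.Agent.Results.MP_a28cf0_nt.QuadraticTwistsField
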