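import Pool.Agent.Q255.L2.Eng
import Pool.Agent.Q241.L2.Kode
import Pool.Agent.Q261.L2.Kint
import Pool.Agent.Q241.L2.Kbb
import Pool.Agent.Q176.L2.KW
import Pool.Agent.Q150.L2.KNB
import Pool.Agent.Q68.L2.SN2
import Pool.Agent.Q13.L2.Gma
import Pool.Agent.Q151.L2.HY
import Pool.Agent.Q151.L2.CLH
import Pool.Agent.Q193.L2.Tup
import Pool.Agent.Q68.L2.WC
import Pool.Agent.Q65.L2.Fou
import Pool.Agent.Q151.L2.BAL
import Pool.Agent.Q176.L2.GMC
import Pool.Agent.Q162.L2.GMD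

/-!
# Joint Gaussian moments of the random twists of all Hecke-Maass forms

Let `f` be completely multiplicative with the values `1`, `-1` at the primes. The signs at the primes may have any
joint law whatsoever with `I(x) ≤ x^{o(1)}`, where `I(x)` is the relative entropy (Kullback-Leibler divergence) of the
law of the signs `f(p)`, `p ≤ x`, to independent fair signs. Let `(T_i, a_i)` be any family of numbers `T_i ≥ 1` and
sequences of real coefficients, at most `A X^A` members with `T_i ≤ X`, with `∑_{n ≤ N} a_i(n)^8 ≤ C (N T_i)^ε N` and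
`∑_{s ≤ S squarefree} ∑_{r ≤ R} a_i(r² s)^4 ≤ C (R S T_i)^ε R S` for every `ε > 0` (both are known for all Hecke-Maass forms of
`SL₂(ℤ)`). Then almost surely all moments of all linear combinations of twists with comparable parameters, over all
intervals of all closed horocycles `y₀ ≤ y ≤ y₁`, are the Gaussian ones with a power saving error term.
-/

set_option autoImplicit false

namespace Pool.Agent.Results.MP_a28cf0_nt.RandomTwistsJointMoments

open Finset Filter Topology MeasureTheory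

/-- the sign at the prime with the number `k` (`2` has the number `0`) -/
def sign (ω : ℕ → Bool) (k : ℕ) : ℝ := if ω k then 1 else -1

/-- `f(n) = ∏_p f(p)^{v_p(n)}`, the completely multiplicative function with the sign `ω k` at the prime with the
number `k` (`Nat.count Nat.Prime p` is the number of the primes less than `p`) -/
noncomputable def f (ω : ℕ → Bool) (n : ℕ) : ℝ :=
  n.factorization.prod fun p j => sign ω (Nat.count Nat.Prime p) ^ j

/-- `I(x)`: the relative entropy `∑_s q(s) log (2^n q(s))` of the law `q` of the signs at the `n = π(x)` primes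
`p ≤ x` to independent fair signs, in nats -/
noncomputable def information (ν : Measure (ℕ → Bool)) (x : ℕ) : ℝ :=
  ∑ s : Fin (Nat.primeCounting x) → Bool, ν.real {ω | ∀ k : Fin (Nat.primeCounting x), ω k = s k} *
    Real.log (2 ^ Nat.primeCounting x *
      ν.real {ω | ∀ k : Fin (Nat.primeCounting x), ω k = s k})

/-- `I(x) ≤ x^{o(1)}` -/
def SmallInformation (ν : Measure (ℕ → Bool)) : Prop :=
  ∀ ε : ℝ, 0 < ε → ∀ᶠ x : ℕ in atTop, information ν x ≤ (x : ℝ) ^ ε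

/-- the Bessel function `K_{iT}(u) = ∫_0^∞ exp(-u cosh t) cos(T t) dt` -/
noncomputable def K (T u : ℝ) : ℝ :=
  ∫ t in Set.Ioi (0 : ℝ), Real.exp (-(u * Real.cosh t)) * Real.cos (T * t)

/-- `e^{πT/2} √y ∑_{n ≥ 1} a(n) g(n) K_{iT}(2πny) cos(2πnx)` -/
noncomputable def evenPart (T : ℝ) (a g : ℕ → ℝ) (x y : ℝ) : ℝ :=
  Real.exp (Real.pi * T / 2) * √y * ∑' n : ℕ, a (n + 1) * g (n + 1) *
    K T (2 * Real.pi * (n + 1) * y) * Real.cos (2 * Real.pi * (n + 1) * x)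

/-- `e^{πT/2} √y ∑_{n ≥ 1} a(n) g(n) K_{iT}(2πny) sin(2πnx)` -/
noncomputable def oddPart (T : ℝ) (a g : ℕ → ℝ) (x y : ℝ) : ℝ :=
  Real.exp (Real.pi * T / 2) * √y * ∑' n : ℕ, a (n + 1) * g (n + 1) *
    K T (2 * Real.pi * (n + 1) * y) * Real.sin (2 * Real.pi * (n + 1) * x)

/-- the even or the odd expansion -/
noncomputable def U (b : Bool) (T : ℝ) (a g : ℕ → ℝ) (x y : ℝ) : ℝ :=
  if b then evenPart T a g x y else oddPart T a g x y

/-- the moments of the standard normal law: `(k-1)‼` for even `k`, `0` for odd `k` -/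
def gaussMoment (k : ℕ) : ℕ := if Even k then (k - 1).doubleFactorial else 0

/-! ## Translation -/

open Pool.Agent.Q255.EP

theorem info_eq (ν : Measure (ℕ → Bool)) [IsProbabilityMeasure ν] (x : ℕ) :
    information ν x = Pool.Agent.Q255.IR.D ν (Nat.primeCounting x) := D_eq_sum ν _

theorem small_iff (ν : Measure (ℕ → Bool)) [IsProbabilityMeasure ν] :
    SmallInformation ν ↔ ∀ ε : ℝ, 0 < ε → ∀ᶠ x : ℕ in atTop,
      Pool.Agent.Q255.IR.D ν (Nat.primeCounting x) ≤ (x : ℝ) ^ ε := by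
  unfold SmallInformation
  simp only [info_eq]

theorem kbb : Pool.Agent.Q255.L2.S_KBB := Pool.Agent.Q241.L2.kbb Pool.Agent.Q241.L2.kode Pool.Agent.Q261.L2.t_KINT

theorem kw : Pool.Agent.Q255.L2.S_KW :=
  Pool.Agent.Q176.L2.KW.kw Pool.Agent.Q241.L2.kode Pool.Agent.Q261.L2.t_KINT kbb

theorem sn : Pool.Agent.Q255.L2.S_SN2 :=
  Pool.Agent.Q68.L2.sn2 Pool.Agent.Q255.L2.t_ENG2 Pool.Agent.Q241.L2.kode kbb kw Pool.Agent.Q150.L2.KNB.kn2

theorem wc : Pool.Agent.Q255.L2.S_WC :=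
  Pool.Agent.Q68.L2.wc Pool.Agent.Q151.L2.hy (Pool.Agent.Q151.L2.clh Pool.Agent.Q193.L2.tup Pool.Agent.Q193.L2.par)

theorem gmc : Pool.Agent.Q255.L2.S_GMC :=
  Pool.Agent.Q176.L2.GMC.gmc (Pool.Agent.Q13.L2M.gma Pool.Agent.Q255.L2.t_ENG2) wc Pool.Agent.Q150.L2.KNB.kn2
    Pool.Agent.Q65.L2.Fou.fou sn Pool.Agent.Q241.L2.kode kbb kw

theorem gmd : Pool.Agent.Q255.L2.S_GMD :=
  Pool.Agent.Q162.L2.GMD.gmd gmc Pool.Agent.Q151.L2.bal Pool.Agent.Q241.L2.kode kw Pool.Agent.Q150.L2.KNB.kn2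

/-- the power of two above `t` -/
theorem pow_above {t : ℝ} (ht : 1 ≤ t) : ∃ J : ℕ, t ≤ 2 ^ J ∧ (2 : ℝ) ^ J ≤ 2 * t := by
  obtain ⟨n, h1, h2⟩ := exists_nat_pow_near ht (by norm_num : (1 : ℝ) < 2)
  refine ⟨n + 1, h2.le, ?_⟩
  rw [pow_succ]
  linarith

/-- **Joint Gaussian moments of the random twists of all Hecke-Maass forms.**

For every law of small information and every family of polynomial size with coefficients bounded in the mean (of order
`8`, and of order `4` along `r² s`): almost surely, for every `f'` equal to `f` at all but finitely many primes, all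
`0 < y₀ ≤ y₁`, `Λ`, `k`, `I ≥ 1` there are `c > 0`, `C` such that for all `X ≥ 1`, all members `i_1, …, i_I` with
`X/Λ ≤ T ≤ X`, all parities, all real `|l_j| ≤ 1`, all `y₀ ≤ y ≤ y₁` and `0 ≤ α ≤ β ≤ 1` the `k`-th moment over `[α, β]` of the linear
combination of the twisted expansions is `(β - α) C_k σ^k + O(X^(-c))`, where `σ²` is the mean square over `[0, 1]` of the same
combination of the expansions without twist. -/
theorem result :
    ∀ (ν : Measure (ℕ → Bool)) [IsProbabilityMeasure ν], SmallInformation ν →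
      ∀ (ι : Type) (T : ι → ℝ) (a : ι → ℕ → ℝ) (A : ℝ), (∀ i, 1 ≤ T i) →
        (∀ X : ℝ, 1 ≤ X → {i | T i ≤ X}.Finite ∧ ({i | T i ≤ X}.ncard : ℝ) ≤ A * X ^ A) →
        (∀ ε : ℝ, 0 < ε → ∃ C : ℝ, ∀ (i : ι) (N : ℕ), 1 ≤ N →
          ∑ n ∈ Icc 1 N, a i n ^ 8 ≤ C * ((N : ℝ) * T i) ^ ε * N) →
        (∀ ε : ℝ, 0 < ε → ∃ C : ℝ, ∀ (i : ι) (R S : ℕ), 1 ≤ R → 1 ≤ S →
          ∑ s ∈ (Icc 1 S).filter Squarefree, ∑ r ∈ Icc 1 R, a i (r ^ 2 * s) ^ 4 ≤
            C * ((R : ℝ) * S * T i) ^ ε * (R * S)) →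
        ∀ᵐ ω ∂ν, ∀ ω' : ℕ → Bool, {k | ω' k ≠ ω k}.Finite →
          ∀ (y₀ y₁ Λ : ℝ) (k I : ℕ), 0 < y₀ → y₀ ≤ y₁ → 1 ≤ I → ∃ c C : ℝ, 0 < c ∧
            ∀ (X : ℝ) (i : Fin I → ι) (b : Fin I → Bool) (l : Fin I → ℝ) (y α β : ℝ), 1 ≤ X →
              (∀ j, T (i j) ≤ X ∧ X ≤ Λ * T (i j)) → (∀ j, |l j| ≤ 1) → y₀ ≤ y → y ≤ y₁ →
              0 ≤ α → α ≤ β → β ≤ 1 →
                |(∫ x in α..β, (∑ j, l j * U (b j) (T (i j)) (a (i j)) (f ω') x y) ^ k) -
                  (β - α) * (gaussMoment k *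
                    √(∫ x in (0 : ℝ)..1, (∑ j, l j * U (b j) (T (i j)) (a (i j)) (fun _ => 1) x y) ^ 2) ^ k)| ≤
                  C * X ^ (-c) := by
  intro ν _ hν ι T a A hT hfin h8 h4
  refine Pool.Agent.Q255.L2.ae_fin0 (fun ν' _ hν' => ?_) ν ((small_iff ν).1 hν)
  filter_upwards [gmd ν' hν' ι T a A ⟨hT, hfin⟩ ⟨h8, h4⟩] with ω hω y₀ y₁ Λ k I hy₀ hy₁ hI
  obtain ⟨q, hq⟩ := pow_unbounded_of_one_lt (2 * Λ) (by norm_num : (1 : ℝ) < 2)
  obtain ⟨c, C, hc, hC, h⟩ := hω y₀ y₁ k I q hy₀ hy₁ hI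
  refine ⟨c, C, hc, fun X i b l y α β hX hTi hl hy0 hy1 h0 hab h1 => ?_⟩
  obtain ⟨J, hJ1, hJ2⟩ := pow_above hX
  have hX0 : 0 < X := by linarith
  refine (h J i b l y α β (fun j => ⟨(hTi j).1.trans hJ1, ?_⟩) hl hy0 hy1 h0 hab h1).trans ?_
  · have hT0 : 0 < T (i j) := by linarith [hT (i j)]
    calc (2 : ℝ) ^ J ≤ 2 * X := hJ2
      _ ≤ 2 * (Λ * T (i j)) := by linarith [(hTi j).2]
      _ = (2 * Λ) * T (i j) := by ring
      _ ≤ 2 ^ q * T (i j) := mul_le_mul_of_nonneg_right hq.le hT0.le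
  · refine mul_le_mul_of_nonneg_left ?_ hC
    calc (2 : ℝ) ^ (-(c * J)) = ((2 : ℝ) ^ J) ^ (-c) := by
          rw [← Real.rpow_natCast 2 J, ← Real.rpow_mul (by norm_num)]
          congr 1
          ring
      _ ≤ X ^ (-c) := Real.rpow_le_rpow_of_nonpos hX0 hJ1 (by linarith)

end Pool.Agent.Results.MP_a28cf0_nt.RandomTwistsJointMoments
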