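import Pool.Agent.Q191.TP.Td

/-!
# Triple products `∫ ψ f g q dμ` of eigenfunctions with comparable frequencies (MP_a28cf0_nt)

The plane is `ℂ`, with the upper half plane `HH` and `dμ = dx dy / y²`. `dx f z`, `dy f z` are the
partial derivatives `fderiv ℝ f z 1`, `fderiv ℝ f z I`; `TF U φ` says that `φ : ℂ → ℝ` is smooth
with compact support contained in `U`.

The theorem below is the conjecture for `I = 3` and `(a_1, a_2, a_3) = (1, 1, 1)`, for all
triples of Hecke-Maass forms whose spectral parameters `t_1, t_2, t_3` are comparable and do not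
form a degenerate triangle: then `∫ ψ f_1 f_2 f_3 dμ → 0`, with no further hypothesis. (For
Hecke-Maass cusp forms the hypothesis `QUE` is a theorem of Lindenstrauss and Soundararajan.)

Proof. Let `f, g` satisfy `QUE`, let `r` be the ratio of their frequencies and `L` the Laplacian
normalised by the frequency of `f`. On the product of `f` and `g` the operator `L` acts as the
Laurent polynomial `1 + r² + r (x / y + y / x)`. The joint moments of degree four of `f` and `g`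
satisfy, up to `o(1)`, the linear relations given by the conservation of momentum and by the null
form of the two stress tensors. Modulo these relations, for
`F₀(z) = (z² - 2 (1 + r²) z + (1 - r²)²) (z² - (r² - 1)²)` and every polynomial `P`, the mean square
of `(F₀ P)(L) (f g)` is the integral of the product of a polynomial in the Laplacian of `f²` and of
one in the Laplacian of `g²`, both without mean and vanishing at the exceptional frequencies. By
Cauchy-Schwarz it is bounded by the integrals of the Gaussian field, and these are small if `P` is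
peaked. Finally `(F₀ P)(τ) ∫ ψ f g q = ∫ ψ (F₀ P)(L) (f g) q + o(1)`, with `τ` the quotient of the
eigenvalues of `q` and `f`.
-/

set_option autoImplicit false
open MeasureTheory Filter Topology Complex
open scoped ContDiff

namespace Pool.Agent.Results.MP_a28cf0_nt.TripleProducts

open Pool.Agent.W745.RW (TF dx dy lap)
open Pool.Agent.Q191.TP

/-- the open upper half plane -/
def HH : Set ℂ := {z | 0 < z.im}

/-- the eigenvalue `1/4 + t²` -/
noncomputable def ev (t : ℝ) : ℝ := 1 / 4 + t ^ 2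

/-- `f` is a smooth real solution of `-y² (∂x² + ∂y²) f = (1/4 + t²) f` on the upper half plane -/
def Eig (t : ℝ) (f : ℂ → ℝ) : Prop :=
  ContDiffOn ℝ ∞ f HH ∧ ∀ z ∈ HH, -(z.im ^ 2 * (dx (dx f) z + dy (dy f) z)) = ev t * f z

/-- the operator `f ↦ lam^{-1/2} y (∂x f - i ∂y f)` -/
noncomputable def RO (lam : ℝ) (f : ℂ → ℂ) (z : ℂ) : ℂ :=
  ((z.im / √lam : ℝ) : ℂ) * (dx f z - I * dy f z)

/-- quantum unique ergodicity in microlocal form: `∫ φ f (RO^k f) dμ → ∫ φ dμ` for `k = 0`, and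
`→ 0` for `k ≥ 1` -/
def QUE (t : ℕ → ℝ) (f : ℕ → ℂ → ℝ) : Prop :=
  ∀ φ, TF HH φ → ∀ k : ℕ, Tendsto (fun n => ∫ z, ((φ z / z.im ^ 2 : ℝ) : ℂ) *
    ((f n z : ℂ) * (RO (ev (t n)))^[k] (fun w => (f n w : ℂ)) z)) atTop
    (𝓝 (if k = 0 then ((∫ z, φ z / z.im ^ 2 : ℝ) : ℂ) else 0))

/-- the sequence is bounded in `L²(K, dμ)` for every compact `K` -/
def LocL2 (q : ℕ → ℂ → ℝ) : Prop := ∀ K : Set ℂ, IsCompact K → K ⊆ HH →
  ∃ C : ℝ, ∀ᶠ n in atTop, ∫ z in K, q n z ^ 2 / z.im ^ 2 ≤ C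

/-- the triple product `∫ ψ f g q dμ` -/
noncomputable def J (ψ f g q : ℂ → ℝ) : ℝ := ∫ z, ψ z * (f z * g z * q z) / z.im ^ 2

/-- the two sequences of parameters are comparable -/
def Comparable (t t' : ℕ → ℝ) : Prop :=
  ∃ C : ℝ, ∀ᶠ n in atTop, t n ≤ C * t' n ∧ t' n ≤ C * t n

/-- the parameter `s` stays away from `t1 + t2` and `|t1 - t2|` (no degenerate triangle), and
`s ^ 2` from `|t1 ^ 2 - t2 ^ 2|` (no right triangle with hypotenuse `t1` or `t2`) -/
def Away (t1 t2 s : ℕ → ℝ) : Prop := ∃ δ : ℝ, 0 < δ ∧ ∀ᶠ n in atTop,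
  δ * t1 n ≤ |s n - (t1 n + t2 n)| ∧ δ * t1 n ≤ |s n - abs (t1 n - t2 n)| ∧
    δ * t1 n ^ 2 ≤ |s n ^ 2 - abs (t1 n ^ 2 - t2 n ^ 2)|

/-- the triangles with sides `t 0`, `t 1`, `t 2` (which may be impossible) stay away from
degenerate ones: no parameter is close to the sum of the other two -/
def NonDegenerate (t : Fin 3 → ℕ → ℝ) : Prop := ∃ δ : ℝ, 0 < δ ∧ ∀ᶠ n in atTop,
  ∀ i, δ * t i n ≤ |t 0 n + t 1 n + t 2 n - 2 * t i n|

lemma ev_pos (t : ℝ) : 0 < ev t := by unfold ev; positivity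

lemma HHo : IsOpen HH := isOpen_lt continuous_const continuous_im

lemma ev_lim {t : ℕ → ℝ} (ht : Tendsto t atTop atTop) :
    Tendsto (fun n => ev (t n)) atTop atTop :=
  tendsto_atTop_add_const_left _ _ ((tendsto_pow_atTop two_ne_zero).comp ht)

lemma cmp_bd {K : Set ℂ} (hK : IsCompact K) (hKH : K ⊆ HH) : ∃ C : ℝ, 0 < C ∧
    ∀ F : ℂ → ℝ, ContinuousOn F K → (∀ z, 0 ≤ F z) →
      ∫ z in K, F z ≤ C * ∫ z in K, F z / z.im ^ 2 := by
  have him : ContDiff ℝ ∞ (fun z : ℂ => z.im) := imCLM.contDiff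
  obtain ⟨C, hC⟩ := hK.exists_bound_of_continuousOn
    ((him.continuous.pow 2).continuousOn (s := K))
  refine ⟨|C| + 1, by positivity, fun F hF hF0 => ?_⟩
  have i1 : IntegrableOn F K := hF.integrableOn_compact hK
  have i2 : IntegrableOn (fun z => (|C| + 1) * (F z / z.im ^ 2)) K := by
    refine ContinuousOn.integrableOn_compact hK ?_
    refine continuousOn_const.mul (hF.div (him.continuous.pow 2).continuousOn fun z hz => ?_)
    have : 0 < z.im := hKH hz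
    positivity
  rw [← integral_const_mul]
  refine setIntegral_mono_on i1 i2 hK.measurableSet fun z hz => ?_
  have h3 : 0 < z.im := hKH hz
  have h4 : z.im ^ 2 ≤ |C| + 1 := by
    have h7 : ‖z.im ^ 2‖ ≤ C := hC z hz
    rw [Real.norm_eq_abs, abs_of_nonneg (pow_nonneg h3.le 2)] at h7
    linarith [le_abs_self C]
  rw [mul_div_assoc', le_div_iff₀ (pow_pos h3 2), mul_comm]
  exact mul_le_mul_of_nonneg_right h4 (hF0 z)

lemma pde {t : ℕ → ℝ} {f : ℕ → ℂ → ℝ} (hf : ∀ n, Eig (t n) (f n)) :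
    ∀ n, ∀ z ∈ HH, z.im ^ 2 * lap (f n) z + ev (t n) * f n z = 0 := fun n z hz => by
  have h1 := (hf n).2 z hz
  have h2 : lap (f n) z = dx (dx (f n)) z + dy (dy (f n)) z := rfl
  rw [h2]; linarith

lemma bdd {q : ℕ → ℂ → ℝ} {s : ℕ → ℝ} (hg : ∀ n, Eig (s n) (q n)) (hq : LocL2 q) :
    ∀ K : Set ℂ, IsCompact K → K ⊆ HH → ∃ C : ℝ, ∀ᶠ n in atTop, ∫ z in K, q n z ^ 2 ≤ C := by
  intro K hK hKH
  obtain ⟨C, hC⟩ := hq K hK hKH
  obtain ⟨C', hC'0, hC'⟩ := cmp_bd hK hKH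
  refine ⟨C' * C, hC.mono fun n hn => ?_⟩
  exact (hC' (fun z => q n z ^ 2) (((hg n).1.continuousOn.mono hKH).pow 2)
    (fun z => by positivity)).trans (mul_le_mul_of_nonneg_left hn hC'0.le)

/-- quantum unique ergodicity contains local boundedness -/
lemma QUE.bdd {t : ℕ → ℝ} (ht : Tendsto t atTop atTop) {f : ℕ → ℂ → ℝ}
    (hf : ∀ n, Eig (t n) (f n)) (hq : QUE t f) : ∀ K : Set ℂ, IsCompact K → K ⊆ HH →
      ∃ C : ℝ, ∀ᶠ n in atTop, ∫ z in K, f n z ^ 2 ≤ C := by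
  have H := (Pool.Agent.Y265.HY.hyp_sys HHo (fun z hz => hz) (fun n => ev_pos (t n)) (ev_lim ht)
    (fun n => (hf n).1) (pde hf) hq).1
  intro K hK hKH
  obtain ⟨C, hC⟩ := (H.bd 0).lb.bd K hK hKH
  refine ⟨C, hC.mono fun n hn => ?_⟩
  have e : ∀ z, ‖Pool.Agent.TH294.RS.ww Complex.im (fun n => 1 / √(ev (t n)))
      (fun n z => (f n z : ℂ)) 0 n z‖ ^ 2 = f n z ^ 2 := fun z => by
    show ‖(f n z : ℂ)‖ ^ 2 = _
    rw [Complex.norm_real, Real.norm_eq_abs, sq_abs]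
  simp only [e] at hn
  exact hn

lemma tf {ψ : ℂ → ℝ} (hψ : TF HH ψ) : TF HH (fun z => ψ z / z.im ^ 2) := by
  have sy : ContDiffOn ℝ ∞ (fun z : ℂ => (z.im ^ 2)⁻¹) HH := by
    refine ContDiffOn.inv ((imCLM.contDiff.pow 2).contDiffOn) fun z hz => ?_
    have : 0 < z.im := hz
    exact pow_ne_zero 2 this.ne'
  exact Pool.Agent.TH294.RS.TF.mulc HHo hψ sy

lemma J_eq (ψ f g q : ℂ → ℝ) : J ψ f g q = J3 (fun z => ψ z / z.im ^ 2) f g q := by
  unfold J J3
  congr 1; funext z; ring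

/-! ### the frequencies -/

lemma fr (t : ℝ) (ht : 0 ≤ t) : t ≤ √(ev t) ∧ √(ev t) ≤ t + 1 / 2 := by
  constructor
  · refine Real.le_sqrt_of_sq_le ?_
    unfold ev; linarith
  · refine (Real.sqrt_le_left (by linarith)).2 ?_
    unfold ev; nlinarith

/-- the exceptional polynomial in terms of the frequencies -/
lemma GG_bd {a b c δ : ℝ} (ha : 0 ≤ a) (hb : 0 ≤ b) (hc : 0 ≤ c) (hδ : 0 < δ)
    (h1 : δ * a ≤ |c - (a + b)|) (h2 : δ * a ≤ |c - abs (a - b)|)
    (h3 : δ * a ^ 2 ≤ |c ^ 2 - abs (a ^ 2 - b ^ 2)|) :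
    δ ^ 5 * (a ^ 2) ^ 4 ≤ |GG4 (a ^ 2) (b ^ 2) (c ^ 2)| := by
  have e : GG4 (a ^ 2) (b ^ 2) (c ^ 2) = ((c - (a + b)) * (c + (a + b))) *
      ((c - |a - b|) * (c + |a - b|)) *
      ((c ^ 2 - |a ^ 2 - b ^ 2|) * (c ^ 2 + |a ^ 2 - b ^ 2|)) := by
    have e1 : |a - b| ^ 2 = (a - b) ^ 2 := sq_abs _
    have e2 : |a ^ 2 - b ^ 2| ^ 2 = (a ^ 2 - b ^ 2) ^ 2 := sq_abs _
    calc GG4 (a ^ 2) (b ^ 2) (c ^ 2) = ((c - (a + b)) * (c + (a + b))) *
        (c ^ 2 - (a - b) ^ 2) * (c ^ 4 - (a ^ 2 - b ^ 2) ^ 2) := by unfold GG4; ring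
      _ = ((c - (a + b)) * (c + (a + b))) * (c ^ 2 - |a - b| ^ 2) *
        (c ^ 4 - |a ^ 2 - b ^ 2| ^ 2) := by rw [e1, e2]
      _ = _ := by ring
  have n1 := abs_nonneg (a - b)
  have n2 := abs_nonneg (a ^ 2 - b ^ 2)
  have l1 : a ≤ |c + (a + b)| := by rw [abs_of_nonneg (by positivity)]; linarith
  have l2 : δ * a ≤ |c + abs (a - b)| := by
    refine h2.trans ?_
    rw [abs_of_nonneg (by positivity : 0 ≤ c + |a - b|), abs_le]
    constructor <;> linarith
  have l3 : δ * a ^ 2 ≤ |c ^ 2 + abs (a ^ 2 - b ^ 2)| := by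
    refine h3.trans ?_
    rw [abs_of_nonneg (by positivity : 0 ≤ c ^ 2 + |a ^ 2 - b ^ 2|), abs_le]
    have := sq_nonneg c
    constructor <;> linarith
  rw [e, abs_mul, abs_mul, abs_mul, abs_mul, abs_mul]
  calc δ ^ 5 * (a ^ 2) ^ 4 = (δ * a * a) * ((δ * a) * (δ * a)) * ((δ * a ^ 2) * (δ * a ^ 2)) := by
        ring
    _ ≤ _ := by gcongr

/-- the main case, with explicit conditions -/
theorem main {t1 t2 s : ℕ → ℝ} (ht1 : Tendsto t1 atTop atTop) (ht2 : Tendsto t2 atTop atTop)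
    (hs : ∀ n, 0 ≤ s n) {f g q : ℕ → ℂ → ℝ} (hf : ∀ n, Eig (t1 n) (f n))
    (hg : ∀ n, Eig (t2 n) (g n)) (hq : ∀ n, Eig (s n) (q n)) (hqf : QUE t1 f) (hqg : QUE t2 g)
    (hb : ∀ K : Set ℂ, IsCompact K → K ⊆ HH → ∃ C : ℝ, ∀ᶠ n in atTop, ∫ z in K, q n z ^ 2 ≤ C)
    (hc : Comparable t1 t2) (ha : Away t1 t2 s) {ψ : ℂ → ℝ} (hψ : TF HH ψ) :
    Tendsto (fun n => J ψ (f n) (g n) (q n)) atTop (𝓝 0) := by
  obtain ⟨C, hC⟩ := hc
  obtain ⟨δ, hδ, ha⟩ := ha
  have all := (((hC.and ha).and (ht1.eventually_ge_atTop 1)).and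
    (ht2.eventually_ge_atTop 1)).and (ht1.eventually_ge_atTop (2 / δ * (3 / 2 + δ / 4) + 1))
  rw [eventually_atTop] at all
  obtain ⟨N, hN⟩ := all
  have sh : Tendsto (fun n : ℕ => n + N) atTop atTop := tendsto_add_atTop_nat N
  rw [← tendsto_add_atTop_iff_nat N]
  have K0 : ∀ {x y : ℝ}, 1 ≤ x → 1 ≤ y → x ≤ C * y → ev x ≤ (1 + C ^ 2) * ev y := by
    intro x y hx hy h
    have h1 : x ^ 2 ≤ (C * y) ^ 2 := pow_le_pow_left₀ (by linarith) h 2
    unfold ev
    nlinarith [sq_nonneg C]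
  have D : TD HH (fun n => ev (t1 (n + N))) (fun n => ev (t2 (n + N))) (fun n => ev (s (n + N)))
      (fun n => f (n + N)) (fun n => g (n + N)) (fun n => q (n + N)) (1 + C ^ 2) := by
    refine ⟨HHo, fun z hz => hz, fun n => ev_pos _, (ev_lim ht1).comp sh, fun n => ev_pos _,
      (ev_lim ht2).comp sh, fun n => (ev_pos _).le, fun n => (hf _).1, fun n => (hg _).1,
      fun n => (hq _).1, fun n => pde hf _, fun n => pde hg _, fun n => pde hq _,
      fun φ hφ k => (hqf φ hφ k).comp sh, fun φ hφ k => (hqg φ hφ k).comp sh,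
      fun K hK hKH => ?_, by positivity, fun n => ?_, fun n => ?_⟩
    · obtain ⟨C', hC'⟩ := hb K hK hKH
      exact ⟨C', sh.eventually hC'⟩
    · obtain ⟨⟨⟨⟨h1, -⟩, h2⟩, h3⟩, -⟩ := hN (n + N) (by omega)
      exact K0 h2 h3 h1.1
    · obtain ⟨⟨⟨⟨h1, -⟩, h2⟩, h3⟩, -⟩ := hN (n + N) (by omega)
      exact K0 h3 h2 h1.2
  have hd : 0 < (δ / 2) ^ 5 := by positivity
  refine (D.off (tf hψ) hd (Eventually.of_forall fun n => ?_)).congr fun n => (J_eq _ _ _ _).symm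
  obtain ⟨⟨⟨⟨-, g1, g2, g3⟩, h2⟩, h3⟩, h4⟩ := hN (n + N) (by omega)
  obtain ⟨x, hx⟩ : ∃ x, x = t1 (n + N) := ⟨_, rfl⟩
  obtain ⟨y, hy⟩ : ∃ y, y = t2 (n + N) := ⟨_, rfl⟩
  obtain ⟨w, hw⟩ : ∃ w, w = s (n + N) := ⟨_, rfl⟩
  have w0 := hs (n + N)
  show (δ / 2) ^ 5 * ev (t1 (n + N)) ^ 4 ≤
    |GG4 (ev (t1 (n + N))) (ev (t2 (n + N))) (ev (s (n + N)))|
  rw [← hx] at g1 g2 g3 h2 h4 ⊢
  rw [← hy] at g1 g2 g3 h3 ⊢
  rw [← hw] at g1 g2 g3 w0 ⊢
  obtain ⟨a1, a2⟩ := fr x (by linarith)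
  obtain ⟨b1, b2⟩ := fr y (by linarith)
  obtain ⟨c1, c2⟩ := fr w w0
  have big : 3 / 2 + δ / 4 ≤ δ / 2 * x := by
    have h5 : 2 / δ * (3 / 2 + δ / 4) ≤ x := by linarith
    have h6 := mul_le_mul_of_nonneg_left h5 (by positivity : 0 ≤ δ / 2)
    have h7 : δ / 2 * (2 / δ * (3 / 2 + δ / 4)) = 3 / 2 + δ / 4 := by field_simp
    linarith
  have key := GG_bd (a := √(ev x)) (b := √(ev y)) (c := √(ev w)) (δ := δ / 2)
    (Real.sqrt_nonneg _) (Real.sqrt_nonneg _) (Real.sqrt_nonneg _) (by positivity)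
    (by
      have h5 : |w - (x + y)| ≤ |√(ev w) - (√(ev x) + √(ev y))| + 3 / 2 := by
        have h6 : w - (x + y) = (√(ev w) - (√(ev x) + √(ev y))) +
          ((w - √(ev w)) + (√(ev x) - x) + (√(ev y) - y)) := by ring
        rw [h6]
        refine (abs_add_le _ _).trans (add_le_add le_rfl ?_)
        rw [abs_le]; constructor <;> linarith
      have h7 : δ / 2 * √(ev x) ≤ δ / 2 * (x + 1 / 2) :=
        mul_le_mul_of_nonneg_left a2 (by positivity)
      linarith)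
    (by
      have h5 : |w - abs (x - y)| ≤ |√(ev w) - abs (√(ev x) - √(ev y))| + 3 / 2 := by
        have h6 : w - |x - y| = (√(ev w) - |√(ev x) - √(ev y)|) +
          ((w - √(ev w)) + (|√(ev x) - √(ev y)| - |x - y|)) := by ring
        rw [h6]
        refine (abs_add_le _ _).trans (add_le_add le_rfl ?_)
        have h7 := abs_abs_sub_abs_le (√(ev x) - √(ev y)) (x - y)
        have h8 : |(√(ev x) - √(ev y)) - (x - y)| ≤ 1 := by
          rw [abs_le]; constructor <;> linarith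
        have h9 := abs_le.1 (h7.trans h8)
        rw [abs_le]; constructor <;> linarith [h9.1, h9.2]
      have h7 : δ / 2 * √(ev x) ≤ δ / 2 * (x + 1 / 2) :=
        mul_le_mul_of_nonneg_left a2 (by positivity)
      linarith)
    (by
      have ex' : √(ev x) ^ 2 = 1 / 4 + x ^ 2 := Real.sq_sqrt (ev_pos _).le
      have ey' : √(ev y) ^ 2 = 1 / 4 + y ^ 2 := Real.sq_sqrt (ev_pos _).le
      have ew' : √(ev w) ^ 2 = 1 / 4 + w ^ 2 := Real.sq_sqrt (ev_pos _).le
      rw [ex', ey', ew']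
      have h5 : (1 / 4 + x ^ 2 - (1 / 4 + y ^ 2)) = x ^ 2 - y ^ 2 := by ring
      rw [h5]
      have h6 : |w ^ 2 - abs (x ^ 2 - y ^ 2)| ≤ |1 / 4 + w ^ 2 - abs (x ^ 2 - y ^ 2)| + 1 / 4 := by
        have h7 : w ^ 2 - |x ^ 2 - y ^ 2| = (1 / 4 + w ^ 2 - |x ^ 2 - y ^ 2|) + -(1 / 4) := by ring
        have h8 := abs_add_le (1 / 4 + w ^ 2 - |x ^ 2 - y ^ 2|) (-(1 / 4) : ℝ)
        rw [← h7] at h8
        have h9 : |(-(1 / 4) : ℝ)| = 1 / 4 := by norm_num
        rw [h9] at h8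
        exact h8
      have h7 : δ / 2 * x ≤ δ / 2 * x ^ 2 := by
        refine mul_le_mul_of_nonneg_left ?_ (by positivity)
        nlinarith
      nlinarith)
  rw [Real.sq_sqrt (ev_pos _).le, Real.sq_sqrt (ev_pos _).le, Real.sq_sqrt (ev_pos _).le] at key
  exact key

/-- the case in which the third parameter is the largest -/
theorem main2 {t1 t2 s : ℕ → ℝ} (ht1 : Tendsto t1 atTop atTop) (ht2 : Tendsto t2 atTop atTop)
    (hs : Tendsto s atTop atTop) {f g q : ℕ → ℂ → ℝ} (hf : ∀ n, Eig (t1 n) (f n))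
    (hg : ∀ n, Eig (t2 n) (g n)) (hq : ∀ n, Eig (s n) (q n)) (hqf : QUE t1 f) (hqg : QUE t2 g)
    (hqq : QUE s q) (hc : Comparable t1 t2) (hm : ∀ᶠ n in atTop, t1 n ≤ s n ∧ t2 n ≤ s n)
    {δ : ℝ} (hδ : 0 < δ) (ha : ∀ᶠ n in atTop, δ * s n ≤ |s n - (t1 n + t2 n)|)
    {ψ : ℂ → ℝ} (hψ : TF HH ψ) :
    Tendsto (fun n => J ψ (f n) (g n) (q n)) atTop (𝓝 0) := by
  have s0 := hs.eventually_ge_atTop 0
  rw [eventually_atTop] at s0
  obtain ⟨N, hN⟩ := s0
  have sh : Tendsto (fun n : ℕ => n + N) atTop atTop := tendsto_add_atTop_nat N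
  rw [← tendsto_add_atTop_iff_nat N]
  have hqb := hqq.bdd hs hq
  refine main (ht1.comp sh) (ht2.comp sh) (s := fun n => s (n + N))
    (fun n => hN _ (by omega)) (f := fun n => f (n + N)) (g := fun n => g (n + N))
    (q := fun n => q (n + N)) (fun n => hf _) (fun n => hg _) (fun n => hq _)
    (fun φ hφ k => (hqf φ hφ k).comp sh) (fun φ hφ k => (hqg φ hφ k).comp sh)
    (fun K hK hKH => by
      obtain ⟨C', hC'⟩ := hqb K hK hKH
      exact ⟨C', sh.eventually hC'⟩)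
    (by
      obtain ⟨C, hC⟩ := hc
      exact ⟨C, sh.eventually hC⟩) ?_ hψ
  obtain ⟨C, hC⟩ := hc
  obtain ⟨c, hcc⟩ : ∃ c, c = |C| + 1 := ⟨_, rfl⟩
  have cp : 1 ≤ c := by rw [hcc]; linarith [abs_nonneg C]
  obtain ⟨d, hd⟩ : ∃ d, d = min δ (1 / c ^ 2) := ⟨_, rfl⟩
  have dp : 0 < d := by rw [hd]; positivity
  have d1 : d ≤ δ := by rw [hd]; exact min_le_left _ _
  have d2 : d ≤ 1 / c ^ 2 := by rw [hd]; exact min_le_right _ _
  have d3 : d ≤ 1 / c := by
    refine d2.trans (one_div_le_one_div_of_le (by linarith) ?_)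
    nlinarith
  suffices key : ∀ᶠ n in atTop, d * t1 n ≤ |s n - (t1 n + t2 n)| ∧
      d * t1 n ≤ |s n - abs (t1 n - t2 n)| ∧
      d * t1 n ^ 2 ≤ |s n ^ 2 - abs (t1 n ^ 2 - t2 n ^ 2)| from ⟨d, dp, sh.eventually key⟩
  filter_upwards [hC, hm, ha, ht1.eventually_ge_atTop 1, ht2.eventually_ge_atTop 1] with
    n h1 h2 h3 h4 h5
  obtain ⟨x, hx⟩ : ∃ x, x = t1 n := ⟨_, rfl⟩
  obtain ⟨y, hy⟩ : ∃ y, y = t2 n := ⟨_, rfl⟩
  obtain ⟨w, hw⟩ : ∃ w, w = s n := ⟨_, rfl⟩
  rw [← hx, ← hy] at h1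
  rw [← hx, ← hy, ← hw] at h2 h3
  rw [← hx] at h4
  rw [← hy] at h5
  rw [← hx, ← hy, ← hw]
  -- the smaller of the two parameters
  have m1 : d * x ≤ min x y := by
    rw [le_min_iff]
    have e1 : x ≤ c * y := h1.1.trans (mul_le_mul_of_nonneg_right (by
      rw [hcc]; linarith [le_abs_self C]) (by linarith))
    have e2 : d * x ≤ 1 / c * x := mul_le_mul_of_nonneg_right d3 (by linarith)
    have e3 : 1 / c * x ≤ x := by
      rw [one_div]
      exact mul_le_of_le_one_left (by linarith) (inv_le_one_of_one_le₀ cp)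
    have e4 : 1 / c * x ≤ y := by
      rw [one_div, inv_mul_le_iff₀ (by linarith)]; exact e1
    exact ⟨e2.trans e3, e2.trans e4⟩
  have m2 : d * x ^ 2 ≤ min x y ^ 2 := by
    have e1 : x ≤ c * y := h1.1.trans (mul_le_mul_of_nonneg_right (by
      rw [hcc]; linarith [le_abs_self C]) (by linarith))
    have e0 : x ≤ c * min x y := by
      rcases le_total x y with h | h
      · rw [min_eq_left h]; nlinarith
      · rw [min_eq_right h]; exact e1
    have e3 : x ^ 2 ≤ (c * min x y) ^ 2 := pow_le_pow_left₀ (by linarith) e0 2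
    have e4 : d * x ^ 2 ≤ 1 / c ^ 2 * x ^ 2 := mul_le_mul_of_nonneg_right d2 (by positivity)
    refine e4.trans ?_
    rw [one_div, inv_mul_le_iff₀ (by positivity)]
    calc x ^ 2 ≤ (c * min x y) ^ 2 := e3
      _ = c ^ 2 * min x y ^ 2 := by ring
  refine ⟨?_, ?_, ?_⟩
  · have e1 : d * x ≤ δ * x := mul_le_mul_of_nonneg_right d1 (by linarith)
    have e2 : δ * x ≤ δ * w := mul_le_mul_of_nonneg_left h2.1 hδ.le
    linarith
  · refine le_trans ?_ (le_abs_self _)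
    rcases le_total x y with h | h
    · rw [min_eq_left h] at m1
      rw [abs_of_nonpos (by linarith)]
      linarith [h2.2]
    · rw [min_eq_right h] at m1
      rw [abs_of_nonneg (by linarith)]
      linarith [h2.1]
  · refine le_trans ?_ (le_abs_self _)
    rcases le_total x y with h | h
    · rw [min_eq_left h] at m2
      rw [abs_of_nonpos (by nlinarith)]
      nlinarith [h2.2]
    · rw [min_eq_right h] at m2
      rw [abs_of_nonneg (by nlinarith)]
      nlinarith [h2.1]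

/-- **Result.** 1. Let `f n`, `g n` be real eigenfunctions of the hyperbolic Laplacian on the upper
half plane, with comparable spectral parameters `t1 n, t2 n → ∞`, both satisfying microlocal quantum
unique ergodicity, and let `q n` be real eigenfunctions with arbitrary spectral parameters `s n ≥ 0`,
bounded in `L²(K, dμ)` for every compact `K`. If `s n` stays away from `t1 n + t2 n` and from
`|t1 n - t2 n|`, and `(s n)²` from `|(t1 n)² - (t2 n)²|`, then `∫ ψ f g q dμ → 0` for every test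
function `ψ`.

2. Let `f 0 n`, `f 1 n`, `f 2 n` be real eigenfunctions whose spectral parameters tend to infinity
and are pairwise comparable, all satisfying microlocal quantum unique ergodicity. If the triangles
with sides `t 0 n, t 1 n, t 2 n` stay away from the degenerate ones, then
`∫ ψ f_0 f_1 f_2 dμ → 0` for every test function `ψ`. -/
theorem result :
    (∀ (t1 t2 s : ℕ → ℝ) (f g q : ℕ → ℂ → ℝ), Tendsto t1 atTop atTop → Tendsto t2 atTop atTop →
      (∀ n, 0 ≤ s n) → (∀ n, Eig (t1 n) (f n)) → (∀ n, Eig (t2 n) (g n)) →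
      (∀ n, Eig (s n) (q n)) → QUE t1 f → QUE t2 g → LocL2 q → Comparable t1 t2 → Away t1 t2 s →
      ∀ ψ, TF HH ψ → Tendsto (fun n => J ψ (f n) (g n) (q n)) atTop (𝓝 0)) ∧
    (∀ (t : Fin 3 → ℕ → ℝ) (f : Fin 3 → ℕ → ℂ → ℝ), (∀ i, Tendsto (t i) atTop atTop) →
      (∀ i n, Eig (t i n) (f i n)) → (∀ i, QUE (t i) (f i)) → (∀ i j, Comparable (t i) (t j)) →
      NonDegenerate t →
      ∀ ψ, TF HH ψ → Tendsto (fun n => J ψ (f 0 n) (f 1 n) (f 2 n)) atTop (𝓝 0)) := by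
  refine ⟨fun t1 t2 s f g q ht1 ht2 hs hf hg hq hqf hqg hb hc ha ψ hψ =>
    main ht1 ht2 hs hf hg hq hqf hqg (bdd hq hb) hc ha hψ, fun t f ht hf hqe hc hn ψ hψ => ?_⟩
  obtain ⟨δ, hδ, hn⟩ := hn
  refine tendsto_of_subseq_tendsto fun ns hns => ?_
  -- one of the parameters is the largest one infinitely often
  have ex : ∃ i : Fin 3, ∃ᶠ n in atTop, ∀ j, t j (ns n) ≤ t i (ns n) := by
    by_contra hcon
    push Not at hcon
    have h1 : ∀ᶠ n in atTop, ∀ i : Fin 3, ∃ j, t i (ns n) < t j (ns n) :=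
      eventually_all.2 hcon
    obtain ⟨n, hn⟩ := h1.exists
    obtain ⟨i, -, hi⟩ := Finset.exists_max_image Finset.univ (fun i => t i (ns n))
      ⟨0, Finset.mem_univ _⟩
    obtain ⟨j, hj⟩ := hn i
    exact absurd (hi j (Finset.mem_univ _)) (not_le.2 hj)
  obtain ⟨i, hi⟩ := ex
  obtain ⟨σ, hσ, hσi⟩ := extraction_of_frequently_atTop hi
  have hs : Tendsto (fun n => ns (σ n)) atTop atTop := hns.comp hσ.tendsto_atTop
  refine ⟨σ, ?_⟩
  have hn' := hs.eventually hn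
  have cm : ∀ i j, Comparable (fun n => t i (ns (σ n))) (fun n => t j (ns (σ n))) := fun i j => by
    obtain ⟨C, hC⟩ := hc i j
    exact ⟨C, hs.eventually hC⟩
  have qq : ∀ i, QUE (fun n => t i (ns (σ n))) (fun n => f i (ns (σ n))) := fun i φ hφ k =>
    (hqe i φ hφ k).comp hs
  fin_cases i
  · refine (main2 ((ht 1).comp hs) ((ht 2).comp hs) ((ht 0).comp hs) (f := fun n => f 1 (ns (σ n)))
      (g := fun n => f 2 (ns (σ n))) (q := fun n => f 0 (ns (σ n))) (fun n => hf 1 _)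
      (fun n => hf 2 _) (fun n => hf 0 _) (qq 1) (qq 2) (qq 0) (cm 1 2)
      (Eventually.of_forall fun n => ⟨hσi n 1, hσi n 2⟩) hδ (hn'.mono fun n h => ?_) hψ).congr
      fun n => ?_
    · have := h 0
      rw [show t 0 (ns (σ n)) + t 1 (ns (σ n)) + t 2 (ns (σ n)) - 2 * t 0 (ns (σ n)) =
        -(t 0 (ns (σ n)) - (t 1 (ns (σ n)) + t 2 (ns (σ n)))) by ring, abs_neg] at this
      exact this
    · simp only [J]
      congr 1; funext z; ring
  · refine (main2 ((ht 0).comp hs) ((ht 2).comp hs) ((ht 1).comp hs) (f := fun n => f 0 (ns (σ n)))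
      (g := fun n => f 2 (ns (σ n))) (q := fun n => f 1 (ns (σ n))) (fun n => hf 0 _)
      (fun n => hf 2 _) (fun n => hf 1 _) (qq 0) (qq 2) (qq 1) (cm 0 2)
      (Eventually.of_forall fun n => ⟨hσi n 0, hσi n 2⟩) hδ (hn'.mono fun n h => ?_) hψ).congr
      fun n => ?_
    · have := h 1
      rw [show t 0 (ns (σ n)) + t 1 (ns (σ n)) + t 2 (ns (σ n)) - 2 * t 1 (ns (σ n)) =
        -(t 1 (ns (σ n)) - (t 0 (ns (σ n)) + t 2 (ns (σ n)))) by ring, abs_neg] at this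
      exact this
    · simp only [J]
      congr 1; funext z; ring
  · refine main2 ((ht 0).comp hs) ((ht 1).comp hs) ((ht 2).comp hs) (f := fun n => f 0 (ns (σ n)))
      (g := fun n => f 1 (ns (σ n))) (q := fun n => f 2 (ns (σ n))) (fun n => hf 0 _)
      (fun n => hf 1 _) (fun n => hf 2 _) (qq 0) (qq 1) (qq 2) (cm 0 1)
      (Eventually.of_forall fun n => ⟨hσi n 0, hσi n 1⟩) hδ (hn'.mono fun n h => ?_) hψ
    have := h 2
    rw [show t 0 (ns (σ n)) + t 1 (ns (σ n)) + t 2 (ns (σ n)) - 2 * t 2 (ns (σ n)) =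
      -(t 2 (ns (σ n)) - (t 0 (ns (σ n)) + t 1 (ns (σ n)))) by ring, abs_neg] at this
    exact this

end Pool.Agent.Results.MP_a28cf0_nt.TripleProducts
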